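import Pool.Agent.OpEq.Pub
import Pool.Agent.OpEq.Claim2
import Pool.Agent.OpEq.Sep

/-!
# A II₁ factor that is not elementarily equivalent to its opposite
-/

namespace Pool.Agent.Results.MP_1b700c_an.OppositeNotElemEquiv

open Pool.Agent.OpEq.Pub

/-- There is a separable II₁ factor `M` which is not elementarily equivalent to its opposite
`M^op`. -/
theorem result : ∃ (H : Type) (_ : NormedAddCommGroup H) (_ : InnerProductSpace ℂ H)
    (_ : CompleteSpace H) (M : VonNeumannAlgebra H) (Ω : H),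
    TopologicalSpace.SeparableSpace H ∧ IsII1Factor M Ω ∧ ¬ EquivOpposite M Ω :=
  ⟨Pool.Agent.InnerAm.ell2 Pool.Agent.OpEq.GG, inferInstance, inferInstance, inferInstance,
    Pool.Agent.OpEq.NM.alg, Pool.Agent.OpEq.NM.Ω, Pool.Agent.OpEq.separable_ell2,
    Pool.Agent.OpEq.NM_factor, Pool.Agent.OpEq.not_equiv⟩

end Pool.Agent.Results.MP_1b700c_an.OppositeNotElemEquiv
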